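import Mathlib
import Pool.Agent.Helper43.RK.StI

/-!
Project RK (MP_b3ce06_al), module ISC: scaling of triangles.
-/

set_option autoImplicit false

namespace Pool.Agent.Helper26.RK

open Pool.Agent.Helper43.RK

section

variable {Λ : Type} [CommRing Λ] {G : Type} [Group G] {k : ℤ} (P : PP Λ G k)

theorem f_a (i : ℤ) : P.f ^ (-i) * P.a * P.f ^ i = P.a * P.Z ^ i := by
  have h1 : ∀ j : ℤ, P.a⁻¹ * P.f ^ j * P.a = P.f ^ (k * j) := by
    intro j
    have h := conj_zpow (i := j) (a := P.a⁻¹) (b := P.f)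
    rw [inv_inv, P.af, ← zpow_mul] at h
    exact h.symm
  have h2 : P.f ^ (-i) * P.a = P.a * P.f ^ (k * (-i)) := by
    rw [← h1]
    group
  have h3 : P.Z ^ i = P.f ^ (k * (-i)) * P.f ^ i := by
    rw [PP.Z, ← zpow_mul, ← zpow_add]
    congr 1
    ring
  rw [h2, h3, mul_assoc]

theorem f_Z (i e : ℤ) : P.f ^ (-i) * P.Z ^ e * P.f ^ i = P.Z ^ e := by
  rw [PP.Z, ← zpow_mul, ← zpow_add, ← zpow_add]
  congr 1
  ring

end

theorem hISC : StISC := by
  intro hI Λ _ G _ k P v l r e hT i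
  obtain ⟨r1, r2, -, -, r5, -⟩ := hI Λ G k P
  unfold PP.Tri at hT ⊢
  have h1 : P.f ^ (-i) * (P.a * P.p v * P.a) * P.f ^ i =
      P.f ^ (-i) * (P.p l * P.a * P.p r * P.Z ^ e) * P.f ^ i := by rw [hT]
  have e1 : P.f ^ (-i) * (P.a * P.p v * P.a) * P.f ^ i =
      P.a * P.p (P.up (k * i) * v) * P.a * P.Z ^ (k * i + i) := by
    have : P.f ^ (-i) * (P.a * P.p v * P.a) * P.f ^ i =
        (P.f ^ (-i) * P.a * P.f ^ i) * (P.f ^ (-i) * P.p v * P.f ^ i) *
          (P.f ^ (-i) * P.a * P.f ^ i) := by group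
    rw [this, f_a, r5, zpow_add]
    have h2 : P.Z ^ i * P.p (P.up i * v) = P.p (P.up (k * i) * v) * P.Z ^ i := by
      rw [r1, ← mul_assoc, ← P.up_add]
      congr 4
      ring
    calc P.a * P.Z ^ i * P.p (P.up i * v) * (P.a * P.Z ^ i)
        = P.a * (P.Z ^ i * P.p (P.up i * v)) * P.a * P.Z ^ i := by group
      _ = P.a * (P.p (P.up (k * i) * v) * P.Z ^ i) * P.a * P.Z ^ i := by rw [h2]
      _ = P.a * P.p (P.up (k * i) * v) * (P.Z ^ i * P.a) * P.Z ^ i := by group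
      _ = P.a * P.p (P.up (k * i) * v) * (P.a * P.Z ^ (k * i)) * P.Z ^ i := by rw [r2]
      _ = _ := by group
  have e2 : P.f ^ (-i) * (P.p l * P.a * P.p r * P.Z ^ e) * P.f ^ i =
      P.p (P.up i * l) * P.a * P.p (P.up (k * i) * r) * P.Z ^ (i + e) := by
    have : P.f ^ (-i) * (P.p l * P.a * P.p r * P.Z ^ e) * P.f ^ i =
        (P.f ^ (-i) * P.p l * P.f ^ i) * (P.f ^ (-i) * P.a * P.f ^ i) *
          (P.f ^ (-i) * P.p r * P.f ^ i) * (P.f ^ (-i) * P.Z ^ e * P.f ^ i) := by group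
    rw [this, f_a, r5, r5, f_Z, zpow_add]
    have h2 : P.Z ^ i * P.p (P.up i * r) = P.p (P.up (k * i) * r) * P.Z ^ i := by
      rw [r1, ← mul_assoc, ← P.up_add]
      congr 4
      ring
    calc P.p (P.up i * l) * (P.a * P.Z ^ i) * P.p (P.up i * r) * P.Z ^ e
        = P.p (P.up i * l) * P.a * (P.Z ^ i * P.p (P.up i * r)) * P.Z ^ e := by group
      _ = P.p (P.up i * l) * P.a * (P.p (P.up (k * i) * r) * P.Z ^ i) * P.Z ^ e := by rw [h2]
      _ = _ := by group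
  rw [e1, e2] at h1
  have h3 := congrArg (fun x => x * P.Z ^ (-(k * i + i))) h1
  simp only [mul_assoc, ← zpow_add] at h3
  rw [add_neg_cancel, zpow_zero, mul_one] at h3
  have h4 : i + e + -(k * i + i) = e - k * i := by ring
  rw [h4] at h3
  simp only [mul_assoc]
  exact h3

end Pool.Agent.Helper26.RK
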