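import Mathlib
import Pool.Agent.Helper43.RK.StT

/-!
Project RK (MP_b3ce06_al), module TD: a normal subgroup with quotient `PSL(3, 2^n)`.
-/

set_option autoImplicit false

namespace Pool.Agent.Helper26.RK

open Pool.Agent.Helper43.RK
open Matrix

section gen

variable {k : Type} [Field k]

/-- inverse of `mJ` -/
def mJi : Matrix (Fin 3) (Fin 3) k := !![-1, 1, 0; 1, 0, 0; 0, 0, 1]

/-- inverse of `mQ d` -/
def mQi (d : k) : Matrix (Fin 3) (Fin 3) k := !![1, -d, 0; 0, 1, 0; 0, 0, 1]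

theorem J_Ji : (mJ : Matrix (Fin 3) (Fin 3) k) * mJi = 1 := by
  ext i j
  fin_cases i <;> fin_cases j <;> simp [mJ, mJi, Matrix.mul_apply, Fin.sum_univ_three]

theorem Q_Qi (d : k) : mQ d * mQi d = 1 := by
  ext i j
  fin_cases i <;> fin_cases j <;> simp [mQ, mQi, Matrix.mul_apply, Fin.sum_univ_three]

theorem Qi_Q (d : k) : mQi d * mQ d = 1 := mul_eq_one_comm.1 (Q_Qi d)

/-- conjugate of an element of `SL` by an element of `GL` -/
theorem conj_sl (X : GL (Fin 3) k) (M : SpecialLinearGroup (Fin 3) k) :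
    ∃ N : SpecialLinearGroup (Fin 3) k,
      SpecialLinearGroup.toGL N = X * SpecialLinearGroup.toGL M * X⁻¹ := by
  refine ⟨⟨(X : Matrix (Fin 3) (Fin 3) k) * (M : Matrix (Fin 3) (Fin 3) k) *
    ((X⁻¹ : GL (Fin 3) k) : Matrix (Fin 3) (Fin 3) k), ?_⟩, ?_⟩
  · have h : (X : Matrix (Fin 3) (Fin 3) k) * ((X⁻¹ : GL (Fin 3) k) : Matrix (Fin 3) (Fin 3) k)
        = 1 := by
      rw [← Units.val_mul, mul_inv_cancel, Units.val_one]
    have h2 := congrArg Matrix.det h
    rw [det_mul, det_one] at h2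
    rw [det_mul, det_mul, M.2, mul_one, h2]
  · apply Units.ext
    rfl

variable [CharP k 2] {n : ℕ} {d : k} {T : Type} [Group T] (τ : Tg n d T)

/-- the homomorphism from `SL` to the target -/
def psi : SpecialLinearGroup (Fin 3) k →* T := τ.κ.comp SpecialLinearGroup.toGL

omit [CharP k 2] in
theorem mem_psi_kX (X : GL (Fin 3) k) (s : T) (hs : s ∈ (psi τ).range) :
    τ.κ X * s * (τ.κ X)⁻¹ ∈ (psi τ).range := by
  obtain ⟨M, rfl⟩ := hs
  obtain ⟨N, hN⟩ := conj_sl X M
  refine ⟨N, ?_⟩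
  change τ.κ (SpecialLinearGroup.toGL N) = τ.κ X * τ.κ (SpecialLinearGroup.toGL M) * (τ.κ X)⁻¹
  rw [hN, map_mul, map_mul, map_inv]

omit [CharP k 2] in
theorem mem_psi_w (s : T) (hs : s ∈ (psi τ).range) : τ.w * s * τ.w⁻¹ ∈ (psi τ).range := by
  obtain ⟨M, rfl⟩ := hs
  have hd : (mJi * ((M⁻¹ : SpecialLinearGroup (Fin 3) k) :
      Matrix (Fin 3) (Fin 3) k).transpose * mJ).det = 1 := by
    have h := congrArg Matrix.det (J_Ji (k := k))
    rw [det_mul, det_one] at h
    rw [det_mul, det_mul, det_transpose, (M⁻¹).2, mul_one, mul_comm, h]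
  refine ⟨⟨_, hd⟩, ?_⟩
  change τ.κ (SpecialLinearGroup.toGL ⟨_, hd⟩) = τ.w * τ.κ (SpecialLinearGroup.toGL M) * τ.w⁻¹
  refine (τ.hw _ _ ?_).symm
  rw [← map_inv]
  change mJ * (mJi * ((M⁻¹ : SpecialLinearGroup (Fin 3) k) :
      Matrix (Fin 3) (Fin 3) k).transpose * mJ) = ((M⁻¹ : SpecialLinearGroup (Fin 3) k) :
      Matrix (Fin 3) (Fin 3) k).transpose * mJ
  rw [← Matrix.mul_assoc, ← Matrix.mul_assoc, J_Ji, Matrix.one_mul]

theorem mem_psi_f (s : T) (hs : s ∈ (psi τ).range) : τ.φ * s * τ.φ⁻¹ ∈ (psi τ).range := by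
  obtain ⟨M, rfl⟩ := hs
  have e1 : (M : Matrix (Fin 3) (Fin 3) k).map (fun x => x ^ 2) =
      (frobenius k 2).mapMatrix (M : Matrix (Fin 3) (Fin 3) k) := rfl
  have hd : (mQ d * (M : Matrix (Fin 3) (Fin 3) k).map (fun x => x ^ 2) * mQi d).det = 1 := by
    have h := congrArg Matrix.det (Q_Qi d)
    rw [det_mul, det_one] at h
    rw [det_mul, det_mul, e1, ← RingHom.map_det, M.2, map_one, mul_one, h]
  refine ⟨⟨_, hd⟩, ?_⟩
  change τ.κ (SpecialLinearGroup.toGL ⟨_, hd⟩) = τ.φ * τ.κ (SpecialLinearGroup.toGL M) * τ.φ⁻¹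
  refine (τ.hφ _ _ ?_).symm
  change mQ d * (M : Matrix (Fin 3) (Fin 3) k).map (fun x => x ^ 2) * mQi d * mQ d =
    mQ d * (M : Matrix (Fin 3) (Fin 3) k).map (fun x => x ^ 2)
  rw [Matrix.mul_assoc, Qi_Q, Matrix.mul_one]

omit [CharP k 2] in
theorem ker_psi : (psi τ).ker = Subgroup.center (SpecialLinearGroup (Fin 3) k) := by
  ext M
  rw [MonoidHom.mem_ker]
  change τ.κ (SpecialLinearGroup.toGL M) = 1 ↔ _
  rw [τ.ker]
  constructor
  · intro h
    rw [Subgroup.mem_center_iff]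
    intro N
    apply SpecialLinearGroup.toGL_injective
    rw [map_mul, map_mul]
    exact (h (SpecialLinearGroup.toGL N)).symm
  · intro h N
    obtain ⟨r, -, hr⟩ := Matrix.SpecialLinearGroup.mem_center_iff.1 h
    apply Units.ext
    change (M : Matrix (Fin 3) (Fin 3) k) * (N : Matrix (Fin 3) (Fin 3) k) =
      (N : Matrix (Fin 3) (Fin 3) k) * (M : Matrix (Fin 3) (Fin 3) k)
    rw [← hr]
    exact (scalar_commute r (Commute.all r) (N : Matrix (Fin 3) (Fin 3) k))

end gen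

theorem hTD : StTD := by
  intro hTC n β d hn hD T _ τ A Y hA hY G _ f g a t fa ft fg fw hcl
  set S : Subgroup T := (psi τ).range with hS
  have hfin : Finite (SpecialLinearGroup (Fin 3) (GaloisField 2 n)) := by
    infer_instance
  have hSf : Finite (S : Set T) := by
    rw [hS]
    exact Set.finite_range _
  -- `S` is contained in the range of `f`
  have hle : S ≤ f.range := by
    rintro _ ⟨M, rfl⟩
    refine hTC n d hn hD T τ A Y hA hY f.range ⟨a, fa⟩ ⟨t, ft⟩ ⟨g ^ β * a, ?_⟩ M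
    rw [map_mul, map_pow, fw]
  -- normalizer
  have hnz : ∀ x : T, (∀ s ∈ S, x * s * x⁻¹ ∈ S) → x ∈ Subgroup.normalizer (S : Set T) :=
    fun x hx => Subgroup.mem_normalizer_fintype hx
  have hk : ∀ X, τ.κ X ∈ Subgroup.normalizer (S : Set T) := fun X => hnz _ (mem_psi_kX τ X)
  have hw : τ.w ∈ Subgroup.normalizer (S : Set T) := hnz _ (mem_psi_w τ)
  have hf : τ.φ ∈ Subgroup.normalizer (S : Set T) := hnz _ (mem_psi_f τ)
  have hall : ∀ x : G, f x ∈ Subgroup.normalizer (S : Set T) := by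
    intro x
    have h1 : x ∈ Subgroup.closure {g, a, t} := by rw [hcl]; trivial
    have h2 : Subgroup.closure {g, a, t} ≤ (Subgroup.normalizer (S : Set T)).comap f := by
      rw [Subgroup.closure_le]
      rintro y (rfl | rfl | rfl)
      · change f y ∈ Subgroup.normalizer (S : Set T)
        rw [fg]
        exact mul_mem (pow_mem hf _) (mul_mem hw (hk A))
      · change f y ∈ Subgroup.normalizer (S : Set T)
        rw [fa]
        exact hk A
      · change f y ∈ Subgroup.normalizer (S : Set T)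
        rw [ft]
        exact hk Y
    exact h2 h1
  refine ⟨S.comap f, ⟨?_⟩, ?_⟩
  · intro x hx y
    have h1 := (Subgroup.mem_normalizer_iff.1 (hall y) (f x)).1 hx
    change f (y * x * y⁻¹) ∈ S
    rw [map_mul, map_mul, map_inv]
    exact h1
  · let f1 : S.comap f →* S := (f.comp (S.comap f).subtype).codRestrict S (fun x => x.2)
    have hf1 : Function.Surjective f1 := by
      rintro ⟨s, hs⟩
      obtain ⟨x, rfl⟩ := hle hs
      exact ⟨⟨x, hs⟩, rfl⟩
    let e1 : SpecialLinearGroup (Fin 3) (GaloisField 2 n) ⧸ (psi τ).ker ≃* (psi τ).range :=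
      QuotientGroup.quotientKerEquivRange (psi τ)
    let e2 : SpecialLinearGroup (Fin 3) (GaloisField 2 n) ⧸ (psi τ).ker ≃*
        ProjectiveSpecialLinearGroup (Fin 3) (GaloisField 2 n) :=
      QuotientGroup.quotientMulEquivOfEq (ker_psi τ)
    refine ⟨(e1.symm.trans e2).toMonoidHom.comp f1, ?_⟩
    exact (e1.symm.trans e2).surjective.comp hf1

end Pool.Agent.Helper26.RK
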